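import Pool.Agent.Helper11.T5.Defs

/-!
# T5a (MP_12a1af): the shape of the pair statements

`PairOK k P E`: with `m = k + 2` and `k` static levels, for all used states `l' ≤ l` with `P l' l`,
with probability at least `1 - m' exp (-l ^ c0)` every `n` has at most `C1 l ^ (E / m)`
representations `n = a + a'`, `a` in the state `l`, `a'` in the state `l'`.
-/

set_option autoImplicit false

namespace Pool.Agent.Helper5.T5

open Finset Pool.Agent.Helper27.T5 Pool.Agent.Helper11.T5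
open Pool.Agent.Helper42.T5.Pr
open Pool.Agent.Helper5.ET (era bb Nj)

/-- bound for the pairs of states with the property `P` -/
def PairOK (k : ℕ) (P : ℕ → ℕ → Prop) (E : ℕ) : Prop :=
  ∃ (K0 : ℕ) (C1 c0 m' : ℝ), 0 ≤ C1 ∧ 0 < c0 ∧ 0 ≤ m' ∧
    ∀ l l', K0 ≤ l' → l' ≤ l → used (k + 2) l → used (k + 2) l' → P l' l →
    ∀ K : Finset Key, keysOf (k + 2) k l ⊆ K → keysOf (k + 2) k l' ⊆ K →
    PrLe (Mk (k + 2)) K
      (fun w => ∃ n, C1 * (l : ℝ) ^ ((E : ℝ) / ((k + 2 : ℕ) : ℝ)) < (Rp (k + 2) k l l' w n : ℝ))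
      (m' * Real.exp (-((l : ℝ) ^ c0)))

theorem PairOK.mono {k E E' : ℕ} {P P' : ℕ → ℕ → Prop} (h : PairOK k P E) (hE : E ≤ E')
    (hP : ∀ l' l, P' l' l → P l' l) : PairOK k P' E' := by
  obtain ⟨K0, C1, c0, m', h1, h2, h3, h⟩ := h
  refine ⟨K0 + 1, C1, c0, m', h1, h2, h3, ?_⟩
  intro l l' hl' hll hu hu' hp K hK hK'
  refine PrLe_mono (fun w _ hw => ?_) le_rfl
    (h l l' (by omega) hll hu hu' (hP _ _ hp) K hK hK')
  obtain ⟨n, hn⟩ := hw
  refine ⟨n, lt_of_le_of_lt (mul_le_mul_of_nonneg_left ?_ h1) hn⟩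
  refine Real.rpow_le_rpow_of_exponent_le ?_ ?_
  · exact_mod_cast (show 1 ≤ l by omega)
  · exact div_le_div_of_nonneg_right (by exact_mod_cast hE) (Nat.cast_nonneg _)

theorem PairOK.or {k E : ℕ} {P P' : ℕ → ℕ → Prop} (h : PairOK k P E) (h' : PairOK k P' E) :
    PairOK k (fun l' l => P l' l ∨ P' l' l) E := by
  obtain ⟨K0, C1, c0, m1, h1, h2, h3, h⟩ := h
  obtain ⟨K0', C1', c0', m1', h1', h2', h3', h'⟩ := h'
  refine ⟨max K0 K0' + 1, max C1 C1', min c0 c0', max m1 m1', le_max_of_le_left h1,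
    lt_min h2 h2', le_max_of_le_left h3, ?_⟩
  intro l l' hl' hll hu hu' hp K hK hK'
  have hl1 : (1 : ℝ) ≤ (l : ℝ) := by exact_mod_cast (show 1 ≤ l by omega)
  have hr : 0 ≤ (l : ℝ) ^ ((E : ℝ) / ((k + 2 : ℕ) : ℝ)) := Real.rpow_nonneg (Nat.cast_nonneg _) _
  rcases hp with hp | hp
  · refine PrLe_mono (fun w _ hw => ?_) ?_
      (h l l' (by omega) hll hu hu' hp K hK hK')
    · obtain ⟨n, hn⟩ := hw
      exact ⟨n, lt_of_le_of_lt (mul_le_mul_of_nonneg_right (le_max_left _ _) hr) hn⟩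
    · refine mul_le_mul (le_max_left _ _) (Real.exp_le_exp.2 (neg_le_neg ?_))
        (Real.exp_pos _).le (le_max_of_le_left h3)
      exact Real.rpow_le_rpow_of_exponent_le hl1 (min_le_left _ _)
  · refine PrLe_mono (fun w _ hw => ?_) ?_
      (h' l l' (by omega) hll hu hu' hp K hK hK')
    · obtain ⟨n, hn⟩ := hw
      exact ⟨n, lt_of_le_of_lt (mul_le_mul_of_nonneg_right (le_max_right _ _) hr) hn⟩
    · refine mul_le_mul (le_max_right _ _) (Real.exp_le_exp.2 (neg_le_neg ?_))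
        (Real.exp_pos _).le (le_max_of_le_left h3)
      exact Real.rpow_le_rpow_of_exponent_le hl1 (min_le_right _ _)

/-! ## the statements of the blocks -/

/-- RANGE -/
def RangeStmt (k : ℕ) : Prop := ∃ K0 : ℕ, ∀ l, K0 ≤ l → used (k + 2) l →
    ∀ w : Key → ℕ, (∀ q, w q < Mk (k + 2) q) → ∀ a ∈ AA (k + 2) k l w,
      XA (k + 2) k l ≤ a ∧ a < XA (k + 2) k (l + 1)

/-- COUNT -/
def CountStmt (k : ℕ) : Prop := ∃ (K0 c : ℕ) (C : ℝ), 0 < C ∧ ∀ l, K0 ≤ l → used (k + 2) l →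
    ∀ w : Key → ℕ, (∀ q, w q < Mk (k + 2) q) →
      Real.sqrt (XA (k + 2) k l) ≤ C * (l : ℝ) ^ c * ((AA (k + 2) k l w).card : ℝ)

/-- NEAR, all fronts are common (`l' = l` included) -/
def BotStmt : Prop := ∃ E k0 : ℕ, ∀ k, k0 ≤ k → PairOK k
    (fun l' l => era l' = era l ∧ fc (k + 2) k l' l = k + 1) E

/-- NEAR, the finest common front is not the last one -/
def StaticStmt : Prop := ∃ E k0 : ℕ, ∀ k, k0 ≤ k → PairOK k
    (fun l' l => era l' = era l ∧ 1 ≤ fc (k + 2) k l' l ∧ fc (k + 2) k l' l ≤ k) E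

/-- no common front (J0, cases (b) and (c)) -/
def ZeroStmt : Prop := ∃ E k0 : ℕ, ∀ k, k0 ≤ k → PairOK k
    (fun l' l => era l' = era l ∧ fc (k + 2) k l' l = 0 ∧
      l - l' < 200 * W (k + 2) (era l) 1) E

/-- FAR -/
def FarStmt : Prop := ∃ E k0 : ℕ, ∀ k, k0 ≤ k → PairOK k
    (fun l' l => 200 * W (k + 2) (era l) 1 ≤ l - l') E

end Pool.Agent.Helper5.T5
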