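import Pool.Agent.Helper5.T5.Pair
import Pool.Agent.Helper42.T5.Pairs
import Pool.Agent.Helper37.T5.Gap

/-!
# T5a (MP_12a1af): the theorem from the block statements of `Pair.lean`
-/

set_option autoImplicit false

namespace Pool.Agent.Helper5.T5

open Finset Pool.Agent.Helper27.T5 Pool.Agent.Helper11.T5
open Pool.Agent.Helper42.T5 Pool.Agent.Helper42.T5.Pr Pool.Agent.Helper30.T5
open Pool.Agent.Helper5.ET (era bb Nj)

/-! ## all pairs -/

/-- used states of different eras are far apart -/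
theorem far_of_era_ne {m l l' : ℕ} (hll : l' ≤ l) (hu : used m l) (hu' : used m l')
    (he : era l' ≠ era l) : 200 * W m (era l) 1 ≤ l - l' := by
  have h1 : era l' < era l := lt_of_le_of_ne (Pool.Agent.Helper50.ET.era_mono hll) he
  have h2 := (Pool.Agent.Helper27.T4.era_spec l' (used_bb_zero hu')).2
  have h3 : bb (era l' + 1) ≤ bb (era l) :=
    Pool.Agent.Helper27.T4.bb_strictMono.monotone h1
  have h4 := hu.1
  omega

/-- all pairs of used states -/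
theorem pair_of (hbot : BotStmt) (hstat : StaticStmt) (hzero : ZeroStmt) (hfar : FarStmt) :
    ∃ E k0 : ℕ, ∀ k, k0 ≤ k → PairOK k (fun _ _ => True) E := by
  obtain ⟨E1, k1, h1⟩ := hbot
  obtain ⟨E2, k2, h2⟩ := hstat
  obtain ⟨E3, k3, h3⟩ := hzero
  obtain ⟨E4, k4, h4⟩ := hfar
  refine ⟨E1 + E2 + E3 + E4, k1 + k2 + k3 + k4, fun k hk => ?_⟩
  have a1 := (h1 k (by omega)).mono (E' := E1 + E2 + E3 + E4) (by omega) (fun _ _ h => h)
  have a2 := (h2 k (by omega)).mono (E' := E1 + E2 + E3 + E4) (by omega) (fun _ _ h => h)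
  have a3 := (h3 k (by omega)).mono (E' := E1 + E2 + E3 + E4) (by omega) (fun _ _ h => h)
  have a4 := (h4 k (by omega)).mono (E' := E1 + E2 + E3 + E4) (by omega) (fun _ _ h => h)
  obtain ⟨K0, C1, c0, m', b1, b2, b3, h⟩ := ((a1.or a2).or a3).or a4
  refine ⟨K0, C1, c0, m', b1, b2, b3, ?_⟩
  intro l l' hl' hll hu hu' _ K hK hK'
  refine h l l' hl' hll hu hu' ?_ K hK hK'
  by_cases hD : 200 * W (k + 2) (era l) 1 ≤ l - l'
  · exact Or.inr hD
  left
  have he : era l' = era l := by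
    by_contra hne
    exact hD (far_of_era_ne hll hu hu' hne)
  have hfc : fc (k + 2) k l' l ≤ k + 1 := Nat.findGreatest_le _
  by_cases h0 : fc (k + 2) k l' l = 0
  · exact Or.inr ⟨he, h0, by omega⟩
  · by_cases hk : fc (k + 2) k l' l = k + 1
    · exact Or.inl (Or.inl ⟨he, hk⟩)
    · exact Or.inl (Or.inr ⟨he, by omega, by omega⟩)

/-! ## the factor of the scales -/

theorem QQ_le (m j t : ℕ) : QQ m j t ≤ (10 ^ 6) ^ (W m j (t + 1) - W m j (t + 2)) := by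
  unfold QQ Qs
  calc ∏ f : Fin 3, Qf m j (t + 2) f ≤ ∏ f : Fin 3, (10 ^ 6) ^ dg m j (t + 2) f :=
        Finset.prod_le_prod' (fun f _ => Qf_le m j (t + 2) f)
    _ = (10 ^ 6) ^ (∑ f : Fin 3, dg m j (t + 2) f) := by rw [Finset.prod_pow_eq_pow_sum]
    _ ≤ (10 ^ 6) ^ (W m j (t + 1) - W m j (t + 2)) := by
        refine Nat.pow_le_pow_right (by norm_num) ?_
        rw [Fin.sum_univ_three]
        simp only [dg, gw, Matrix.cons_val_zero, Matrix.cons_val_one, Matrix.cons_val_two,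
          Matrix.head_cons, Matrix.tail_cons]
        rw [show t + 2 - 1 = t + 1 from rfl]
        omega

theorem LA_le_mul (m j : ℕ) : ∀ k, LA m k j * (10 ^ 6) ^ W m j (k + 1) ≤ (10 ^ 6) ^ W m j 1 := by
  intro k
  induction k with
  | zero => simp [LA, Pool.Agent.Helper57.T5.LL_zero]
  | succ k ih =>
    refine le_trans ?_ ih
    have h1 : LA m (k + 1) j = LA m k j * QQ m j k := Pool.Agent.Helper57.T5.LL_succ _ _
    rw [h1, mul_assoc]
    refine Nat.mul_le_mul_left _ ?_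
    have h2 : W m j (k + 2) ≤ W m j (k + 1) := by
      unfold W
      exact Nat.pow_le_pow_right (by norm_num)
        (Nat.sub_le_sub_left (Nat.mul_le_mul_right _ (by omega)) _)
    calc QQ m j k * (10 ^ 6) ^ W m j (k + 1 + 1)
        ≤ (10 ^ 6) ^ (W m j (k + 1) - W m j (k + 2)) * (10 ^ 6) ^ W m j (k + 2) :=
          Nat.mul_le_mul_right _ (QQ_le m j k)
      _ = (10 ^ 6) ^ W m j (k + 1) := by
          rw [← pow_add, Nat.sub_add_cancel h2]

theorem LA_le (m k j : ℕ) : LA m k j ≤ (10 ^ 6) ^ W m j 1 :=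
  (Nat.le_mul_of_pos_right _ (by positivity)).trans (LA_le_mul m j k)

theorem TA_TB (m k : ℕ) : TB m (TA m k) :=
  TB_of (LA m k) (LA_pos m k) (LA_le m k)

/-! ## T5a -/

/-- **T5a** from the blocks -/
theorem t5a_of (hrange : ∀ k, RangeStmt k) (hcount : ∀ k, CountStmt k) (hbot : BotStmt)
    (hstat : StaticStmt) (hzero : ZeroStmt) (hfar : FarStmt) (ε : ℝ) (hε : 0 < ε) : ∃ (A : Set ℕ) (b : ℕ → ℝ) (C c : ℝ) (D : ℕ),
    0 < C ∧ 0 < c ∧ c < 1 ∧ (∀ j, 0 < b j ∧ 1.4 * b j ≤ b (j + 1)) ∧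
      (∀ n : ℕ, 2 ≤ n →
        (({q : ℕ × ℕ | q.1 ∈ A ∧ q.2 ∈ A ∧ q.1 + q.2 = n}.ncard : ℕ) : ℝ) ≤
          C * (Real.log n) ^ ε) ∧
      (∀ x : ℕ, 2 ≤ x → (∀ j, (Real.log x) ^ (1 - c) ≤ |Real.log x - b j|) →
        Real.sqrt x / (C * (Real.log x) ^ D) ≤ ((A ∩ Set.Iio x).ncard : ℝ)) ∧
      (∀ x : ℕ, 2 ≤ x → Real.sqrt x * Real.exp (-(C * (Real.log x) ^ (1 - c))) ≤
        ((A ∩ Set.Iio x).ncard : ℝ)) := by
  obtain ⟨E, k0, hpair⟩ := pair_of hbot hstat hzero hfar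
  obtain ⟨k1, hk1⟩ := exists_nat_gt ((E : ℝ) / ε)
  set k := max k0 k1 with hk
  have hkE : (E : ℝ) / ((k + 2 : ℕ) : ℝ) ≤ ε := by
    have h2 : (0 : ℝ) < ((k + 2 : ℕ) : ℝ) := by positivity
    rw [div_le_iff₀ h2]
    rw [div_lt_iff₀ hε] at hk1
    have h3 : (k1 : ℝ) ≤ ((k + 2 : ℕ) : ℝ) := by
      exact_mod_cast (le_max_right k0 k1).trans (by omega)
    nlinarith
  obtain ⟨Ka, C1, c0, m', g1, g2, g3, hp⟩ := hpair k (le_max_left _ _)
  obtain ⟨Kb, hrange⟩ := hrange k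
  obtain ⟨Kc, cc, C2, hC2, hcount⟩ := hcount k
  have hTB := TA_TB (k + 2) k
  obtain ⟨j1, hj1⟩ := sch_14 hTB (by omega)
  have hm2 : (0 : ℝ) < 1 / ((k + 2 : ℕ) : ℝ) := by positivity
  have hm3 : 1 / ((k + 2 : ℕ) : ℝ) < 1 := by
    rw [div_lt_one (by positivity)]
    exact_mod_cast (show 1 < k + 2 by omega)
  obtain ⟨A, C, hC, r1, r2, r3⟩ := gap_final_of_pairs (κ := Key) (M := Mk (k + 2))
    (Mk_pos (k + 2)) (keysOf (k + 2) k) (AA (k + 2) k) (N := XA (k + 2) k)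
    (XT_succ hTB (by omega)) (XT_pos hTB 0) (K0 := max Ka (max Kb (max Kc 1)))
    (m := cc) (Λ := 1000037 ^ 2) (C0 := 30000) (C := C2) (C1 := C1) (ε := ε)
    (c := 1 / ((k + 2 : ℕ) : ℝ) / 2) (c' := 1 / ((k + 2 : ℕ) : ℝ)) (c0 := c0) (m' := m')
    (by norm_num) hC2 g1 hε.le (by norm_num) (by linarith) (by linarith) hm3 g2 g3
    (used (k + 2)) (fun j => Real.log (XA (k + 2) k (bb (j1 + j))))
    (sch_H1 hTB (by omega) le_rfl) (sch_H2 hTB (by omega) le_rfl j1)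
    (fun l hl hu => hrange l (by omega) hu) (fun l hl hu => hcount l (by omega) hu)
    (by
      intro l l' hl' hll hu hu' K hK hK'
      refine PrLe_mono (fun w _ hw => ?_) le_rfl (hp l l' (by omega) hll hu hu' trivial K hK hK')
      obtain ⟨n, hn⟩ := hw
      refine ⟨n, lt_of_le_of_lt (mul_le_mul_of_nonneg_left ?_ g1) hn⟩
      exact Real.rpow_le_rpow_of_exponent_le (by exact_mod_cast (show 1 ≤ l by omega)) hkE)
  · refine ⟨A, fun j => Real.log (XA (k + 2) k (bb (j1 + j))), C,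
      1 / ((k + 2 : ℕ) : ℝ) / 2, cc + 2, hC, by linarith, by linarith, ?_, r1, r2, r3⟩
    intro j
    exact ⟨log_XT_bb_pos hTB _, hj1 (j1 + j) (by omega)⟩

end Pool.Agent.Helper5.T5
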