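import Pool.Agent.Helper84.T5b.Top
import Pool.Agent.Helper29.T5b.FarInst
import Pool.Agent.Helper29.T5b.Free
import Pool.Agent.Helper57.T5b.BotStmt
import Pool.Agent.Helper83.T5b.CaseBotD
import Pool.Agent.Helper22.NEARb.StatStmt
import Pool.Agent.Helper66.T5b.StatD
import Pool.Agent.Helper3.T5b.MidEnd
import Pool.Agent.Helper25.T5b.Crude
import Pool.Agent.Helper87.OUT2.Final
import Pool.Agent.Helper54.T5b.S3Fin
import Pool.Agent.Helper54.T5b.SMFin
import Pool.Agent.Helper98.S3P.Top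
import Pool.Agent.Helper33.T5b.BotS
import Pool.Agent.Helper22.NEARs.Stat
import Pool.Agent.Helper1.T5b.Lines67
import Pool.Agent.Helper44.T5b.NearRSLate
import Pool.Agent.Helper44.T5b.NearRSB
import Pool.Agent.Helper21.T5b.SplitInj
import Pool.Agent.Helper48.T5b.SplitTwo

/-!
# T5b (MP_12a1af): the blocks

`blocks`: all fields of `Helper84.T5b.Blocks`.
-/

set_option autoImplicit false

namespace Pool.Agent.Helper5.T5

open Pool.Agent.Helper84.T5b

/-- **the blocks of T5b** -/
theorem blocks : Blocks where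
  far := Pool.Agent.Helper29.T5b.far
  bot := Pool.Agent.Helper57.T5b.blk_bot
  botD := Pool.Agent.Helper83.T5b.blk_botD
  botS := Pool.Agent.Helper33.T5b.blk_botS_of
    (fun m hm => Pool.Agent.Helper44.T5b.nearRSB m (m ^ 2) hm)
  stat := Pool.Agent.Helper22.NEARb.blk_stat
  statD := Pool.Agent.Helper66.T5b.blk_statD
  statS := Pool.Agent.Helper22.NEARs.blk_statS_of_near
    (fun m hm => Pool.Agent.Helper44.T5b.nearRS m (m ^ 2) hm)
  inj := Pool.Agent.Helper1.T5b.blk_inj
  two := rpc_of_free (m0 := 1) (fun _ _ _ _ h => h.1)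
    (fun m hm => Pool.Agent.Helper29.T5b.freeStmt m (by omega))
    (Pool.Agent.Helper87.OUT2.blk_up.mono (fun _ _ _ _ h => ⟨h.1, h.2.1, h.2.2.1⟩)
      (fun _ _ _ _ _ c hc => ⟨c, le_rfl, hc⟩))
    Pool.Agent.Helper1.T5b.blk_two_free
  mid := Pool.Agent.Helper3.T5b.mid
  crude := Pool.Agent.Helper25.T5b.crude Pool.Agent.Helper87.OUT2.blk_up
  splitInj := Pool.Agent.Helper21.T5b.blk_splitInj
  splitTwo := Pool.Agent.Helper48.T5b.blk_splitTwo
  splitMid := Pool.Agent.Helper54.T5b.splitMid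
  splitCrude := Pool.Agent.Helper29.T5b.splitCrude

end Pool.Agent.Helper5.T5
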