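import Pool.Agent.Helper50.T5b.Count

/-!
# T5b (MP_12a1af): the number of elements of a state, refined

The static level of size `SS m i` loses `(C * SS m i) ^ 3` only, and the product of all sizes
`≤ SS m s` is at most `SS m s ^ (m + 1)`.  So a state has at least `√N / (C l ^ (10 + 3 m))`
elements.
-/

set_option autoImplicit false

namespace Pool.Agent.Helper5.T5

open Finset Pool.Agent.Helper5.ET Pool.Agent.Helper27.T4
open Pool.Agent.Helper27.T5b Pool.Agent.Helper37.T5b Pool.Agent.Helper30.T5b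
open Pool.Agent.Helper57.T5 Pool.Agent.Helper39.T5 Pool.Agent.Helper84.T5b
open Pool.Agent.Helper31.T5 Pool.Agent.Helper50.T5b
open Pool.Agent.Helper27.T5 (sp gw)

/-- sum of the exponents of the sizes -/
theorem sum_aa_le {m : ℕ} (hm : 0 < m) (s : ℕ) :
    ∑ i ∈ range (s + 1), aa m i ≤ (m + 1) * aa m s := by
  induction s with
  | zero =>
    rw [zero_add, sum_range_one]
    exact Nat.le_mul_of_pos_left _ (by omega)
  | succ s ih =>
    rw [sum_range_succ]
    have h1 : aa m s < m * (aa m s / m + 1) := by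
      have h2 := Nat.div_add_mod (aa m s) m
      have h3 := Nat.mod_lt (aa m s) hm
      rw [mul_add, mul_one]
      omega
    have h4 : m * aa m (s + 1) = m * aa m s + m * (aa m s / m + 1) := by
      rw [aa_succ]
      ring
    have h5 : (m + 1) * aa m (s + 1) = m * aa m (s + 1) + aa m (s + 1) := by ring
    have h6 : (m + 1) * aa m s = m * aa m s + aa m s := by ring
    omega

/-- product of the sizes -/
theorem prod_SS_le {m : ℕ} (hm : 0 < m) {s r : ℕ} (hr : r ≤ s) :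
    ∏ t ∈ range r, SS m (s - t) ≤ SS m s ^ (m + 1) := by
  have h1 : ∏ t ∈ range r, SS m (s - t) = 2 ^ ∑ t ∈ range r, aa m (s - t) := by
    unfold SS
    rw [Finset.prod_pow_eq_pow_sum]
  rw [h1]
  unfold SS
  rw [← pow_mul]
  apply Nat.pow_le_pow_right (by norm_num)
  rw [mul_comm (aa m s) (m + 1)]
  refine le_trans ?_ (sum_aa_le hm s)
  have h2 : ∑ t ∈ range r, aa m (s - t) = ∑ i ∈ (range r).image (fun t => s - t), aa m i := by
    rw [sum_image]
    intro a ha b hb hab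
    rw [Finset.mem_coe, mem_range] at ha hb
    simp only at hab
    omega
  rw [h2]
  apply sum_le_sum_of_subset
  intro i hi
  rw [mem_image] at hi
  obtain ⟨t, -, rfl⟩ := hi
  rw [mem_range]
  omega

/-- one static level -/
theorem card_Ys_ge' {m : ℕ} (hm : 0 < m) (k : ℕ) : ∃ t0 : ℕ, ∀ l : ℕ, 0 < l →
    t0 ≤ bL m k l → ∀ t < rL m k l,
    Real.sqrt (QQ m k (sL m k l) t) / (672 * ((SS m (sL m k l - t) : ℕ) : ℝ)) ^ 3 ≤
      ((Ys m k l t).card : ℝ) := by
  obtain ⟨t0, h0⟩ := exists_pow_le_QF hm k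
  refine ⟨t0, fun l hl hbl t ht => ?_⟩
  have hst := lt_sub_of_lt_rL ht
  obtain ⟨u, hu⟩ : ∃ u, sL m k l - t = u + 1 := ⟨sL m k l - t - 1, by omega⟩
  have h := card_TT_ge_log (pz k (sL m k l - t)) (zf m k (sL m k l - t))
    (l := SS m (sL m k l - t))
    (Pool.Agent.Helper30.T5b.pz_prime k _) (fun f => ?_) (SS_pos m _) (fun f => ?_)
  · rw [Fintype.card_fin] at h
    exact h
  · -- the modulus of a family is large
    have h1 := h0 (sL m k l - t) (by omega) f 1 ?_
    · refine le_trans ?_ h1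
      norm_num
    · have h2 := eight_mul_dz hm (sL m k l - t) f
      have h3 := SS_le_two_Sg hm u
      have h4 := SS_ge hm (u + 1)
      have h5 : (2 : ℕ) ^ 250 = 2 ^ 30 * 2 ^ 220 := by rw [← pow_add]
      have h6 : (1 : ℕ) ≤ 2 ^ 220 := Nat.one_le_two_pow
      have h7 : 1 ≤ gw f := by fin_cases f <;> simp [gw]
      rw [hu] at h2 ⊢
      have h8 : Sg m (u + 1) ≤ gw f * Sg m (u + 1) := Nat.le_mul_of_pos_left _ h7
      have h9 : (2 : ℕ) ^ 30 ≤ 2 ^ 30 * 2 ^ 220 := Nat.le_mul_of_pos_right _ h6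
      rw [h5] at h4
      have h10 : (2 : ℕ) ^ 30 = 1073741824 := by norm_num
      omega
  · -- exponents
    have h1 : pz k (sL m k l - t) f ^ zf m k (sL m k l - t) f ≤
        (10 ^ 6) ^ dz m (sL m k l - t) f := QF_le m k _ f
    have h2 := mul_log_le (pz_pos k _ f) h1
    have h3 : dz m (sL m k l - t) f ≤ Sg m (sL m k l - t) := by
      have h4 := eight_mul_dz hm (sL m k l - t) f
      have h5 : gw f ≤ 3 := by fin_cases f <;> simp [gw]
      have h6 : gw f * Sg m (sL m k l - t) ≤ 3 * Sg m (sL m k l - t) :=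
        Nat.mul_le_mul_right _ h5
      omega
    have h5 : (dz m (sL m k l - t) f : ℝ) ≤ ((SS m (sL m k l - t) : ℕ) : ℝ) := by
      exact_mod_cast h3.trans (Sg_le m _)
    linarith

/-- the number of configurations -/
theorem card_conf_ge' {m : ℕ} (hm : 0 < m) (k : ℕ) : ∃ t0 : ℕ, ∃ C : ℝ, 1 ≤ C ∧ ∀ l : ℕ, 0 < l →
    bb 0 ≤ mL m k l → kt m k ≤ era (mL m k l) → t0 ≤ bL m k l →
    Real.sqrt (Un m k l) / (C * (l : ℝ) ^ (10 + 3 * m)) ≤
      ((XJ m k l ×ˢ Fintype.piFinset (fun t : Fin (rL m k l) => Ys m k l t)).card : ℝ) := by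
  obtain ⟨t0, h0⟩ := card_Ys_ge' hm k
  have hBP : (1 : ℝ) ≤ BP k := by exact_mod_cast (BP_pos k)
  refine ⟨t0, (672 * BP k) ^ 7 * 672 ^ (3 * (k + 1)), ?_, fun l hl hb hk hbl => ?_⟩
  · have h1 : (1 : ℝ) ≤ (672 * BP k) ^ 7 := one_le_pow₀ (by linarith)
    have h2 : (1 : ℝ) ≤ 672 ^ (3 * (k + 1)) := one_le_pow₀ (by norm_num)
    nlinarith
  have hl1 : (1 : ℝ) ≤ l := by exact_mod_cast hl
  have hr := rL_bounds (m := m) hm k l
  have h1 := card_XJ_ge m k l hl
  -- the static levels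
  have h2 : Real.sqrt (LL (QQ m k (sL m k l)) (rL m k l)) /
      (672 ^ (3 * (k + 1)) * (l : ℝ) ^ (3 * (m + 1))) ≤
      ((Fintype.piFinset (fun t : Fin (rL m k l) => Ys m k l t)).card : ℝ) := by
    rw [Fintype.card_piFinset]
    have e0 : ∏ t : Fin (rL m k l), (672 * ((SS m (sL m k l - t) : ℕ) : ℝ)) ^ 3 ≤
        672 ^ (3 * (k + 1)) * (l : ℝ) ^ (3 * (m + 1)) := by
      rw [Finset.prod_pow, Finset.prod_mul_distrib, Finset.prod_const, card_univ,
        Fintype.card_fin, mul_pow, ← pow_mul]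
      have e1 : ∏ t : Fin (rL m k l), ((SS m (sL m k l - t) : ℕ) : ℝ) ≤ (l : ℝ) ^ (m + 1) := by
        rw [Fin.prod_univ_eq_prod_range (fun t => ((SS m (sL m k l - t) : ℕ) : ℝ)) (rL m k l)]
        have e2 := prod_SS_le hm (s := sL m k l) (r := rL m k l) hr.2.2.2.2.2
        have e3 : SS m (sL m k l) ≤ l := by
          have h6 : SS m (sL m k l) ≤ SS m (sL m k l + 1) := SS_mono m (by omega)
          have h7 : SS m (sL m k l + 1) ≤ mL m k l := SS_sv_succ_le' hm hb hk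
          have h8 := mL_le m k l
          omega
        have e4 : ∏ t ∈ range (rL m k l), SS m (sL m k l - t) ≤ l ^ (m + 1) :=
          e2.trans (Nat.pow_le_pow_left e3 _)
        exact_mod_cast e4
      have e5 : (672 : ℝ) ^ (rL m k l * 3) ≤ 672 ^ (3 * (k + 1)) :=
        pow_le_pow_right₀ (by norm_num) (by omega)
      have e6 : (∏ t : Fin (rL m k l), ((SS m (sL m k l - t) : ℕ) : ℝ)) ^ 3 ≤
          (l : ℝ) ^ (3 * (m + 1)) := by
        rw [mul_comm 3 (m + 1), pow_mul]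
        exact pow_le_pow_left₀ (Finset.prod_nonneg fun t _ => Nat.cast_nonneg _) e1 3
      exact mul_le_mul e5 e6 (by positivity) (by positivity)
    have e7 : Real.sqrt (LL (QQ m k (sL m k l)) (rL m k l)) =
        ∏ t : Fin (rL m k l), Real.sqrt (QQ m k (sL m k l) t : ℝ) := by
      unfold LL
      push_cast
      rw [Real.sqrt_prod _ (fun f _ => by positivity),
        ← Fin.prod_univ_eq_prod_range (fun t => Real.sqrt (QQ m k (sL m k l) t : ℝ))
          (rL m k l)]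
    have e8 : (0 : ℝ) < ∏ t : Fin (rL m k l), (672 * ((SS m (sL m k l - t) : ℕ) : ℝ)) ^ 3 := by
      apply Finset.prod_pos
      intro t _
      have : (0 : ℝ) < ((SS m (sL m k l - t) : ℕ) : ℝ) := by exact_mod_cast SS_pos m _
      positivity
    refine (div_le_div_of_nonneg_left (Real.sqrt_nonneg _) e8 e0).trans ?_
    rw [e7, ← prod_div_distrib]
    push_cast
    apply Finset.prod_le_prod
    · intro t _
      positivity
    · intro t _
      have := h0 l hl hbl t t.2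
      exact this
  rw [card_product]
  push_cast
  have h3 : Real.sqrt (Un m k l) = Real.sqrt (Jn m k (sL m k l) l) *
      Real.sqrt (LL (QQ m k (sL m k l)) (rL m k l)) := by
    unfold Un
    push_cast
    rw [Real.sqrt_mul (by positivity)]
  have h9 : (10 + 3 * m) = 7 + 3 * (m + 1) := by ring
  calc Real.sqrt (Un m k l) /
        ((672 * BP k) ^ 7 * 672 ^ (3 * (k + 1)) * (l : ℝ) ^ (10 + 3 * m))
      = (Real.sqrt (Jn m k (sL m k l) l) / (672 * ((l * BP k : ℕ) : ℝ)) ^ 7) *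
        (Real.sqrt (LL (QQ m k (sL m k l)) (rL m k l)) /
          (672 ^ (3 * (k + 1)) * (l : ℝ) ^ (3 * (m + 1)))) := by
        rw [h3, h9, pow_add, div_mul_div_comm]
        congr 1
        push_cast
        ring
    _ ≤ _ := mul_le_mul h1 h2 (by positivity) (by positivity)

/-- **count, refined** -/
theorem count_all' {m : ℕ} (hm : 0 < m) (k : ℕ) : ∃ (K0 : ℕ) (C : ℝ), 0 < C ∧
    ∀ l, K0 ≤ l → ∀ w : Pool.Agent.Helper84.T5b.Key → ℕ, (∀ q, w q < Mk m k q) →
      Real.sqrt (NL m k l) ≤ C * (l : ℝ) ^ (10 + 3 * m) * ((AA m k l w).card : ℝ) := by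
  obtain ⟨t0, C1, hC1, h1⟩ := card_conf_ge' hm k
  obtain ⟨l1, hl1⟩ := Pool.Agent.Helper27.T5b.exists_bL (m := m) hm k t0
  obtain ⟨l2, hl2⟩ := Pool.Agent.Helper30.T5b.exists_late (m := m) (k := k) hm 0 0
  have hD : (0 : ℝ) < (DD k : ℝ) := by exact_mod_cast DD_pos k
  refine ⟨max (max l1 l2) 1, (DD k : ℝ) * C1, by positivity, ?_⟩
  intro l hl w hw
  have e1 : l1 ≤ l := (le_max_left _ _).trans ((le_max_left _ _).trans hl)
  have e2 : l2 ≤ l := (le_max_right _ _).trans ((le_max_left _ _).trans hl)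
  have e3 : 1 ≤ l := (le_max_right _ _).trans hl
  obtain ⟨a1, a2⟩ := hl1 l e1
  obtain ⟨-, -, b3, -⟩ := hl2 l e2
  have hlr : (0 : ℝ) < (l : ℝ) := by exact_mod_cast e3
  have h2 := h1 l e3 a1 b3 a2
  have h3 := card_Vw_ge m k l hw
  have hr := rL_bounds (m := m) hm k l
  have h4 := card_AA_ge (l := l) hm hr.2.2.2.1 hr.2.2.2.2.2 w
  have h5 : (XJ m k l ×ˢ Fintype.piFinset (fun t : Fin (rL m k l) => Ys m k l t)).card =
      (XJ m k l).card * (∏ t ∈ range (rL m k l), (Ys m k l t).card) := by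
    rw [Finset.card_product, Fintype.card_piFinset,
      Fin.prod_univ_eq_prod_range (fun t => (Ys m k l t).card) (rL m k l)]
  rw [← h5] at h4
  set Y : ℝ := ((XJ m k l ×ˢ Fintype.piFinset
    (fun t : Fin (rL m k l) => Ys m k l t)).card : ℝ) with hY
  have h4' : Y * ((Vw m k l w).card : ℝ) ≤ (DD k : ℝ) * ((AA m k l w).card : ℝ) := by
    rw [hY]
    exact_mod_cast h4
  have h6 : Real.sqrt (NL m k l) = Real.sqrt (Un m k l) * Real.sqrt (RT m k (bL m k l)) := by
    rw [← Un_mul_RT hm a1, Nat.cast_mul, Real.sqrt_mul (Nat.cast_nonneg _)]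
  have hP : (0 : ℝ) < C1 * (l : ℝ) ^ (10 + 3 * m) := by positivity
  rw [div_le_iff₀ hP] at h2
  have h7 : Real.sqrt (RT m k (bL m k l)) ≤ ((Vw m k l w).card : ℝ) := by
    have := Real.sqrt_nonneg (RT m k (bL m k l) : ℝ)
    linarith
  rw [h6]
  calc Real.sqrt (Un m k l) * Real.sqrt (RT m k (bL m k l))
      ≤ (Y * (C1 * (l : ℝ) ^ (10 + 3 * m))) * ((Vw m k l w).card : ℝ) :=
        mul_le_mul h2 h7 (Real.sqrt_nonneg _) (mul_nonneg (Nat.cast_nonneg _) hP.le)
    _ = (Y * ((Vw m k l w).card : ℝ)) * (C1 * (l : ℝ) ^ (10 + 3 * m)) := by ring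
    _ ≤ ((DD k : ℝ) * ((AA m k l w).card : ℝ)) * (C1 * (l : ℝ) ^ (10 + 3 * m)) :=
        mul_le_mul_of_nonneg_right h4' hP.le
    _ = (DD k : ℝ) * C1 * (l : ℝ) ^ (10 + 3 * m) * ((AA m k l w).card : ℝ) := by ring

end Pool.Agent.Helper5.T5
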