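import Pool.Agent.Helper5.T5.Top
import Pool.Agent.Helper27.T5.RangeS
import Pool.Agent.Helper50.T5.Count
import Pool.Agent.Helper57.T5.BotStmt
import Pool.Agent.Helper22.NEAR.Static
import Pool.Agent.Helper29.T5.Zero
import Pool.Agent.Helper97.T5.FarStmt

/-!
The set of T5a, from the six blocks.
-/

set_option autoImplicit false

namespace Pool.Agent.Helper5.T5

theorem t5a (ε : ℝ) (hε : 0 < ε) : ∃ (A : Set ℕ) (b : ℕ → ℝ) (C c : ℝ) (D : ℕ),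
    0 < C ∧ 0 < c ∧ c < 1 ∧ (∀ j, 0 < b j ∧ 1.4 * b j ≤ b (j + 1)) ∧
      (∀ n : ℕ, 2 ≤ n →
        (({q : ℕ × ℕ | q.1 ∈ A ∧ q.2 ∈ A ∧ q.1 + q.2 = n}.ncard : ℕ) : ℝ) ≤
          C * (Real.log n) ^ ε) ∧
      (∀ x : ℕ, 2 ≤ x → (∀ j, (Real.log x) ^ (1 - c) ≤ |Real.log x - b j|) →
        Real.sqrt x / (C * (Real.log x) ^ D) ≤ ((A ∩ Set.Iio x).ncard : ℝ)) ∧
      (∀ x : ℕ, 2 ≤ x → Real.sqrt x * Real.exp (-(C * (Real.log x) ^ (1 - c))) ≤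
        ((A ∩ Set.Iio x).ncard : ℝ)) :=
  t5a_of Helper27.T5.rangeStmt Helper50.T5.countStmt
    Helper57.T5.botStmt Helper22.NEAR.staticStmt Helper29.T5.zeroStmt Helper97.T5.farStmt ε hε

end Pool.Agent.Helper5.T5
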