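import Pool.Agent.Helper5.T5.TopR
import Pool.Agent.Helper5.T5.Blocks

/-!
T5b (MP_12a1af): the theorem.
-/

set_option autoImplicit false

namespace Pool.Agent.Helper5.T5

/-- **T5b** -/
theorem t5b (ε : ℝ) (hε : 0 < ε) : ∃ (A : Set ℕ) (C : ℝ) (D : ℕ), 0 < C ∧
    (∀ n : ℕ, 2 ≤ n →
      ({q : ℕ × ℕ | q.1 ∈ A ∧ q.2 ∈ A ∧ q.1 + q.2 = n}.ncard : ℝ) ≤ C * Real.log n ^ ε) ∧
    ∀ x : ℕ, 2 ≤ x → √(x : ℝ) / (C * Real.log x ^ D) ≤ ((A ∩ Set.Iio x).ncard : ℝ) :=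
  Pool.Agent.Helper84.T5b.t5b_of blocks ε hε

/-- **T5b**, with an explicit dependence of the loss on `ε` -/
theorem t5b' : ∃ K : ℝ, ∀ ε : ℝ, 0 < ε → ε ≤ 1 → ∃ (A : Set ℕ) (C : ℝ), 0 < C ∧
    (∀ n : ℕ, 2 ≤ n →
      ({q : ℕ × ℕ | q.1 ∈ A ∧ q.2 ∈ A ∧ q.1 + q.2 = n}.ncard : ℝ) ≤ C * Real.log n ^ ε) ∧
    ∀ x : ℕ, 2 ≤ x →
      √(x : ℝ) / (C * Real.log x ^ (K / ε)) ≤ ((A ∩ Set.Iio x).ncard : ℝ) :=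
  t5b_real blocks

end Pool.Agent.Helper5.T5
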