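import Pool.Agent.Helper84.T5b.Top
import Pool.Agent.Helper73.T5.OneSet
import Pool.Agent.Helper5.ET.Final

/-!
The text of the hand-in on thick sets with `r_A ≤ C (log n)^ε` from the blocks of T5b.
-/

set_option autoImplicit false

namespace Pool.Agent.Helper5.T5

theorem handin (h : Pool.Agent.Helper84.T5b.Blocks) :
    (∀ ε : ℝ, 0 < ε → ∃ (A : Set ℕ) (C : ℝ) (D : ℕ), 0 < C ∧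
      (∀ n : ℕ, 2 ≤ n →
        ({q : ℕ × ℕ | q.1 ∈ A ∧ q.2 ∈ A ∧ q.1 + q.2 = n}.ncard : ℝ) ≤ C * Real.log n ^ ε) ∧
      ∀ x : ℕ, 2 ≤ x → √(x : ℝ) / (C * Real.log x ^ D) ≤ ((A ∩ Set.Iio x).ncard : ℝ)) ∧
    (∃ (A : Set ℕ) (b : ℕ → ℝ), (∀ j, 0 < b j ∧ 1.4 * b j ≤ b (j + 1)) ∧
      (∀ ε : ℝ, 0 < ε → ∃ C : ℝ, ∀ n : ℕ, 2 ≤ n →
        ({q : ℕ × ℕ | q.1 ∈ A ∧ q.2 ∈ A ∧ q.1 + q.2 = n}.ncard : ℝ) ≤ C * Real.log n ^ ε) ∧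
      (∃ C : ℝ, 0 < C ∧ ∀ d : ℝ, 0 < d → ∃ x0 : ℕ, ∀ x : ℕ, x0 ≤ x →
        (∀ j, d * Real.log x ≤ |Real.log x - b j|) →
        √(x : ℝ) / (C * Real.log x ^ 6) ≤ ((A ∩ Set.Iio x).ncard : ℝ)) ∧
      ∀ d : ℝ, 0 < d → ∃ C : ℝ, 0 < C ∧ ∀ x : ℕ, 2 ≤ x →
        (x : ℝ) ^ (1 / 2 - d) / C ≤ ((A ∩ Set.Iio x).ncard : ℝ)) ∧
    ∃ (A : Set ℕ) (C : ℝ), 0 < C ∧
      (∀ n : ℕ, 2 ≤ n →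
        ({q : ℕ × ℕ | q.1 ∈ A ∧ q.2 ∈ A ∧ q.1 + q.2 = n}.ncard : ℝ) ≤ C * √(Real.log n)) ∧
      ∀ x : ℕ, 2 ≤ x → √(x : ℝ) / (C * Real.log x ^ 3) ≤ ((A ∩ Set.Iio x).ncard : ℝ) :=
  ⟨fun ε hε => Pool.Agent.Helper84.T5b.t5b_of h ε hε, Pool.Agent.Helper73.T5.one_set,
    Helper5.ET.final⟩

/-- the fallback without T5b: the clauses (2) and (3) -/
theorem handin23 :
    (∃ (A : Set ℕ) (b : ℕ → ℝ), (∀ j, 0 < b j ∧ 1.4 * b j ≤ b (j + 1)) ∧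
      (∀ ε : ℝ, 0 < ε → ∃ C : ℝ, ∀ n : ℕ, 2 ≤ n →
        ({q : ℕ × ℕ | q.1 ∈ A ∧ q.2 ∈ A ∧ q.1 + q.2 = n}.ncard : ℝ) ≤ C * Real.log n ^ ε) ∧
      (∃ C : ℝ, 0 < C ∧ ∀ d : ℝ, 0 < d → ∃ x0 : ℕ, ∀ x : ℕ, x0 ≤ x →
        (∀ j, d * Real.log x ≤ |Real.log x - b j|) →
        √(x : ℝ) / (C * Real.log x ^ 6) ≤ ((A ∩ Set.Iio x).ncard : ℝ)) ∧
      ∀ d : ℝ, 0 < d → ∃ C : ℝ, 0 < C ∧ ∀ x : ℕ, 2 ≤ x →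
        (x : ℝ) ^ (1 / 2 - d) / C ≤ ((A ∩ Set.Iio x).ncard : ℝ)) ∧
    ∃ (A : Set ℕ) (C : ℝ), 0 < C ∧
      (∀ n : ℕ, 2 ≤ n →
        ({q : ℕ × ℕ | q.1 ∈ A ∧ q.2 ∈ A ∧ q.1 + q.2 = n}.ncard : ℝ) ≤ C * √(Real.log n)) ∧
      ∀ x : ℕ, 2 ≤ x → √(x : ℝ) / (C * Real.log x ^ 3) ≤ ((A ∩ Set.Iio x).ncard : ℝ) :=
  ⟨Pool.Agent.Helper73.T5.one_set, Helper5.ET.final⟩

end Pool.Agent.Helper5.T5
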