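import Pool.Agent.Helper5.T5.CountR
import Pool.Agent.Helper84.T5b.Top

/-!
# T5b (MP_12a1af): the theorem with an explicit dependence of the loss on `ε`

There is `K` such that for every `0 < ε ≤ 1` there is a set `A` with `r_A(n) ≤ C (log n)^ε` and
`|A ∩ [0, x)| ≥ √x / (C (log x)^(K / ε))`.
-/

set_option autoImplicit false

namespace Pool.Agent.Helper5.T5

open Finset Pool.Agent.Helper84.T5b Pool.Agent.Helper37.T5b Pool.Agent.Helper30.T5b
open Pool.Agent.Helper42.T5.Pr Pool.Agent.Helper42.T5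

/-- T5b from the blocks, with the exponent of the logarithm -/
theorem t5b_nat (h : Blocks) : ∃ K : ℕ, ∀ ε : ℝ, 0 < ε → ε ≤ 1 →
    ∃ (A : Set ℕ) (C : ℝ) (D : ℕ), 0 < C ∧ (D : ℝ) ≤ K / ε ∧
    (∀ n : ℕ, 2 ≤ n →
      (({q : ℕ × ℕ | q.1 ∈ A ∧ q.2 ∈ A ∧ q.1 + q.2 = n}.ncard : ℕ) : ℝ) ≤
        C * (Real.log n) ^ ε) ∧
    (∀ x : ℕ, 2 ≤ x →
      Real.sqrt x / (C * (Real.log x) ^ D) ≤ ((A ∩ Set.Iio x).ncard : ℝ)) := by
  obtain ⟨E, m0, hpair⟩ := pair_all h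
  refine ⟨18 + 3 * m0 + 3 * E, fun ε hε hε1 => ?_⟩
  set m1 := ⌊(E : ℝ) / ε⌋₊ + 1 with hm1d
  have hm1 : (E : ℝ) / ε < m1 := by
    rw [hm1d]
    push_cast
    exact Nat.lt_floor_add_one _
  have hm1' : (m1 : ℝ) ≤ (E : ℝ) / ε + 1 := by
    rw [hm1d]
    push_cast
    have := Nat.floor_le (show (0 : ℝ) ≤ (E : ℝ) / ε by positivity)
    linarith
  set m := m0 + m1 + 1 with hm
  have hm0 : 0 < m := by omega
  have hkE : (E : ℝ) / (m : ℝ) ≤ ε := by
    have h2 : (0 : ℝ) < (m : ℝ) := by exact_mod_cast hm0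
    rw [div_le_iff₀ h2]
    rw [div_lt_iff₀ hε] at hm1
    have h3 : (m1 : ℝ) ≤ (m : ℝ) := by
      exact_mod_cast (show m1 ≤ m by omega)
    nlinarith
  have hmε : (m : ℝ) * ε ≤ m0 + 2 + E := by
    have h1 : (m : ℝ) = m0 + m1 + 1 := by
      rw [hm]
      push_cast
      ring
    have h2 : (m1 : ℝ) * ε ≤ E + ε := by
      have h3 : (E : ℝ) / ε * ε = E := div_mul_cancel₀ _ hε.ne'
      nlinarith
    have h4 : (m0 : ℝ) * ε ≤ m0 := mul_le_of_le_one_right (Nat.cast_nonneg _) hε1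
    rw [h1]
    nlinarith
  obtain ⟨Ka, C1, c0, m', g1, g2, g3, hp⟩ := hpair m (by omega)
  obtain ⟨Kb, hrange⟩ := Pool.Agent.Helper27.T5b.exists_AA_range hm0 (m ^ 2)
  obtain ⟨Kc, C2, hC2, hcount⟩ := count_all' hm0 (m ^ 2)
  obtain ⟨A, C, hC, r1, r2⟩ := full_final_of_pairs (κ := Key) (M := Mk m (m ^ 2))
    (Mk_pos m (m ^ 2)) (keysOf m (m ^ 2)) (AA m (m ^ 2)) (N := NL m (m ^ 2))
    (two_NL_le m (m ^ 2)) (NL_pos m (m ^ 2) 0) (K0 := max Ka (max Kb (max Kc 1)))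
    (m := 10 + 3 * m) (Λ := BP (m ^ 2)) (NL_succ_le m (m ^ 2)) (C := C2) (C1 := C1) (ε := ε)
    (c0 := c0) (m' := m') hC2 g1 hε.le g2 g3
    (fun l hl w _ a ha => by
      have := hrange l (by omega) w a ha
      exact ⟨this.1, this.2.2⟩)
    (fun l hl w hw => hcount l (by omega) w hw)
    (by
      intro l l' hl' hll K hK hK'
      refine PrLe_mono (fun w _ hw => ?_) le_rfl (hp l l' (by omega) hll trivial K hK hK')
      obtain ⟨n, hn⟩ := hw
      refine ⟨_, ⟨n, rfl⟩, lt_of_le_of_lt (mul_le_mul_of_nonneg_left ?_ g1) hn⟩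
      exact Real.rpow_le_rpow_of_exponent_le (by exact_mod_cast (show 1 ≤ l by omega)) hkE)
  refine ⟨A, C, 10 + 3 * m + 2, hC, ?_, r1, r2⟩
  rw [le_div_iff₀ hε]
  push_cast
  nlinarith

/-- a natural exponent of the logarithm may be replaced by a larger real one -/
theorem log_pow_le {D : ℕ} {e : ℝ} (hD : (D : ℝ) ≤ e) {x : ℕ} (hx : 2 ≤ x) :
    Real.log x ^ D ≤ (Real.log 2) ^ (-e) * Real.log x ^ e := by
  have h2 : 0 < Real.log 2 := Real.log_pos (by norm_num)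
  have hle : Real.log 2 ≤ Real.log x :=
    Real.log_le_log (by norm_num) (by exact_mod_cast hx)
  have hx0 : 0 < Real.log x := lt_of_lt_of_le h2 hle
  have he : 0 ≤ e := le_trans (Nat.cast_nonneg _) hD
  have h21 : Real.log 2 ≤ 1 := by
    have := Real.log_two_lt_d9
    linarith
  rw [Real.rpow_neg h2.le, inv_mul_eq_div, ← Real.div_rpow hx0.le h2.le]
  rcases le_total 1 (Real.log x) with h1 | h1
  · rw [← Real.rpow_natCast]
    refine (Real.rpow_le_rpow_of_exponent_le h1 hD).trans ?_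
    refine Real.rpow_le_rpow hx0.le ?_ he
    rw [le_div_iff₀ h2]
    nlinarith
  · refine (pow_le_one₀ hx0.le h1).trans ?_
    refine Real.one_le_rpow ?_ he
    rw [le_div_iff₀ h2]
    linarith

/-- **T5b from the blocks, explicit loss** -/
theorem t5b_real (h : Blocks) : ∃ K : ℝ, ∀ ε : ℝ, 0 < ε → ε ≤ 1 →
    ∃ (A : Set ℕ) (C : ℝ), 0 < C ∧
    (∀ n : ℕ, 2 ≤ n →
      (({q : ℕ × ℕ | q.1 ∈ A ∧ q.2 ∈ A ∧ q.1 + q.2 = n}.ncard : ℕ) : ℝ) ≤
        C * Real.log n ^ ε) ∧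
    (∀ x : ℕ, 2 ≤ x →
      √(x : ℝ) / (C * Real.log x ^ (K / ε)) ≤ ((A ∩ Set.Iio x).ncard : ℝ)) := by
  obtain ⟨K, hK⟩ := t5b_nat h
  refine ⟨K, fun ε hε hε1 => ?_⟩
  obtain ⟨A, C, D, hC, hD, h1, h2⟩ := hK ε hε hε1
  have hl2 : 0 < Real.log 2 := Real.log_pos (by norm_num)
  have hl21 : Real.log 2 ≤ 1 := by
    have := Real.log_two_lt_d9
    linarith
  have he : (0 : ℝ) ≤ (K : ℝ) / ε := by positivity
  have hc1 : 1 ≤ (Real.log 2) ^ (-((K : ℝ) / ε)) :=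
    Real.one_le_rpow_of_pos_of_le_one_of_nonpos hl2 hl21 (by linarith)
  refine ⟨A, C * (Real.log 2) ^ (-((K : ℝ) / ε)), by positivity, fun n hn => ?_, fun x hx => ?_⟩
  · refine (h1 n hn).trans ?_
    have hn0 : 0 ≤ Real.log n := Real.log_natCast_nonneg _
    have : 0 ≤ Real.log n ^ ε := Real.rpow_nonneg hn0 _
    nlinarith [mul_nonneg hC.le this]
  · refine le_trans ?_ (h2 x hx)
    have hx0 : 0 < Real.log x := Real.log_pos (by exact_mod_cast (show 1 < x by omega))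
    refine div_le_div_of_nonneg_left (Real.sqrt_nonneg _) (by positivity) ?_
    have := log_pow_le hD hx
    calc C * Real.log x ^ D ≤ C * ((Real.log 2) ^ (-((K : ℝ) / ε)) * Real.log x ^ ((K : ℝ) / ε)) :=
          mul_le_mul_of_nonneg_left this hC.le
      _ = _ := by ring

end Pool.Agent.Helper5.T5
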